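import Mathlib

namespace Pool.Agent.Results.MP_f1fe0b_lc.Counter

/-- player `i` plays a best response at the profile `a` -/
def Sat {n : ℕ} {A : Fin n → Type} (r : Fin n → (∀ i, A i) → ℝ) (i : Fin n) (a : ∀ i, A i) : Prop :=
  ∀ c : A i, r i (Function.update a i c) ≤ r i a

def code (a : Fin 4 → Fin 2) : ℕ := 8 * (a 0).val + 4 * (a 1).val + 2 * (a 2).val + (a 3).val

def tab : List (List (Fin 4)) :=
  [[1, 2, 3], [], [], [0, 1, 2, 3], [0, 2, 3], [0, 1, 2], [1, 3], [], [0, 1, 3], [0, 2], [0, 2, 3], [],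
    [], [1, 2, 3], [0, 1, 2], [0, 1, 3]]

def rn (i : Fin 4) (a : Fin 4 → Fin 2) : ℕ := if i ∈ tab.getD (code a) [] then 1 else 0

def trap (a : Fin 4 → Fin 2) : Prop := code a ∈ [0, 4, 5, 8, 10, 13, 14, 15]

instance : DecidablePred trap := fun a => by unfold trap; infer_instance

theorem result : ∃ (n : ℕ) (A : Fin n → Type) (_ : ∀ i, Fintype (A i)) (_ : ∀ i, Nonempty (A i))
    (r : Fin n → (∀ i, A i) → ℝ),
    (∀ (N : Finset (Fin n)) (a : ∀ i, A i), ∃ b : ∀ i, A i, (∀ i, i ∉ N → b i = a i) ∧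
      ∀ i ∈ N, ∀ c : A i, c ≠ b i → r i (Function.update b i c) < r i b) ∧
    ∃ a : ∀ i, A i, ∀ b : ∀ i, A i,
      Relation.ReflTransGen (fun x y : ∀ i, A i => ∀ i, Sat r i x → y i = x i) a b →
        ¬ ∀ i, Sat r i b := by
  refine ⟨4, fun _ => Fin 2, inferInstance, inferInstance, fun i a => (rn i a : ℝ), ?_, fun _ => 0, ?_⟩
  · simp only [Nat.cast_lt]
    decide +kernel
  · have h1 : ∀ x y : Fin 4 → Fin 2, trap x →
        (∀ i, (∀ c, rn i (Function.update x i c) ≤ rn i x) → y i = x i) → trap y := by decide +kernel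
    have h2 : ∀ x : Fin 4 → Fin 2, trap x → ¬ ∀ i, ∀ c, rn i (Function.update x i c) ≤ rn i x := by
      decide +kernel
    intro b hb
    simp only [Sat, Nat.cast_le] at hb ⊢
    apply h2
    induction hb with
    | refl => decide
    | tail _ h ih => exact h1 _ _ ih h

end Pool.Agent.Results.MP_f1fe0b_lc.Counter
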